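import Mathlib

set_option autoImplicit false

namespace Pool.Agent.Lib.MP_f5ae99_gt.Two

open Set Topology Filter

universe u v w

/-- A countable family that is a network at every point of `S`. -/
def Net {Z : Type u} [TopologicalSpace Z] (S : Set Z) : Prop :=
  ∃ 𝒩 : Set (Set Z), 𝒩.Countable ∧
    ∀ x ∈ S, ∀ U : Set Z, IsOpen U → x ∈ U → ∃ N ∈ 𝒩, x ∈ N ∧ N ⊆ U

/-- The subspace `Y` is omega-monolithic. -/
def Mono {Z : Type u} [TopologicalSpace Z] (Y : Set Z) : Prop :=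
  ∀ A : Set Z, A ⊆ Y → A.Countable → Net (closure A ∩ Y)

section general

variable {Z : Type u} {W : Type v} [TopologicalSpace Z] [TopologicalSpace W]

theorem Net.mono {S T : Set Z} (h : Net T) (hST : S ⊆ T) : Net S := by
  obtain ⟨𝒩, hc, h⟩ := h
  exact ⟨𝒩, hc, fun x hx => h x (hST hx)⟩

theorem Net.preimage {e : W → Z} (he : IsInducing e) {S : Set Z} (h : Net S) : Net (e ⁻¹' S) := by
  obtain ⟨𝒩, hc, h⟩ := h
  refine ⟨(fun N => e ⁻¹' N) '' 𝒩, hc.image _, ?_⟩
  intro x hx U hU hxU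
  obtain ⟨V, hV, rfl⟩ := he.isOpen_iff.1 hU
  obtain ⟨N, hN, h1, h2⟩ := h (e x) hx V hV hxU
  exact ⟨e ⁻¹' N, ⟨N, hN, rfl⟩, h1, preimage_mono h2⟩

theorem Net.pi {ι : Type w} [Countable ι] {S : ι → Set Z} (h : ∀ i, Net (S i)) :
    Net (Set.pi univ S) := by
  classical
  choose 𝒩 hc h using h
  let 𝒮 : Set (Set (ι → Z)) := ⋃ i, (fun N : Set Z => (fun f : ι → Z => f i) ⁻¹' N) '' 𝒩 i
  have hS : 𝒮.Countable := countable_iUnion fun i => (hc i).image _
  refine ⟨(fun t : Set (Set (ι → Z)) => ⋂₀ t) '' {t | t.Finite ∧ t ⊆ 𝒮},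
    (countable_setOf_finite_subset hS).image _, ?_⟩
  intro x hx U hU hxU
  obtain ⟨s, u, hu, hsub⟩ := isOpen_pi_iff.1 hU x hxU
  have h1 : ∀ i ∈ s, ∃ N ∈ 𝒩 i, x i ∈ N ∧ N ⊆ u i := fun i hi =>
    h i (x i) (hx i (mem_univ _)) (u i) (hu i hi).1 (hu i hi).2
  choose! N hN hxN hNu using h1
  refine ⟨⋂₀ ((fun i => (fun f : ι → Z => f i) ⁻¹' N i) '' (s : Set ι)),
    ⟨_, ⟨s.finite_toSet.image _, ?_⟩, rfl⟩, ?_, ?_⟩
  · rintro _ ⟨i, hi, rfl⟩
    exact mem_iUnion.2 ⟨i, N i, hN i hi, rfl⟩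
  · rintro _ ⟨i, hi, rfl⟩
    exact hxN i hi
  · intro f hf
    refine hsub fun i hi => hNu i hi ?_
    exact hf _ ⟨i, hi, rfl⟩

theorem Mono.mono {Y Y' : Set Z} (h : Mono Y) (hY : Y' ⊆ Y) : Mono Y' := fun A hA hc =>
  (h A (hA.trans hY) hc).mono (inter_subset_inter_right _ hY)

theorem Mono.preimage {e : W → Z} (he : IsInducing e) {Y : Set Z} (h : Mono Y) :
    Mono (e ⁻¹' Y) := by
  intro A hA hc
  have h1 := (h (e '' A) (image_subset_iff.2 hA) (hc.image e)).preimage he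
  refine h1.mono ?_
  rintro x ⟨hx, hxY⟩
  exact ⟨image_closure_subset_closure_image he.continuous ⟨x, hx, rfl⟩, hxY⟩

theorem Mono.pi {ι : Type w} [Countable ι] {Y : Set Z} (h : Mono Y) :
    Mono (Set.pi univ fun _ : ι => Y) := by
  intro A hA hc
  have h1 : ∀ i : ι, Net (closure ((fun f : ι → Z => f i) '' A) ∩ Y) := fun i =>
    h _ (by rintro _ ⟨f, hf, rfl⟩; exact hA hf i (mem_univ _)) (hc.image _)
  refine (Net.pi h1).mono ?_
  rintro f ⟨hf, hfY⟩ i -
  exact ⟨image_closure_subset_closure_image (continuous_apply i) ⟨f, hf, rfl⟩,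
    hfY i (mem_univ _)⟩

end general

section two

variable {X : Type u} [TopologicalSpace X]

/-- Continuous two-valued functions that are constant on the fibres of the sequence `a`. -/
def Fac (a : ℕ → X → Bool) : Set (X → Bool) :=
  {f | Continuous f ∧ ∀ x x', (∀ i, a i x = a i x') → f x = f x'}

/-- The traces of `Fac a` on `S` have a countable network. -/
def Small (a : ℕ → X → Bool) (S : Set X) : Prop :=
  ∃ 𝒩 : Set (Set (X → Bool)), 𝒩.Countable ∧
    ∀ f ∈ Fac a, ∀ x ∈ S, ∃ N ∈ 𝒩, f ∈ N ∧ ∀ g ∈ N, g x = f x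

variable {a : ℕ → X → Bool}

theorem Small.mono {S T : Set X} (h : Small a T) (hST : S ⊆ T) : Small a S := by
  obtain ⟨𝒩, hc, h⟩ := h
  exact ⟨𝒩, hc, fun f hf x hx => h f hf x (hST hx)⟩

theorem Small.iUnion {ι : Type w} [Countable ι] {S : ι → Set X} (h : ∀ i, Small a (S i)) :
    Small a (⋃ i, S i) := by
  choose 𝒩 hc h using h
  refine ⟨⋃ i, 𝒩 i, countable_iUnion hc, ?_⟩
  intro f hf x hx
  obtain ⟨i, hi⟩ := mem_iUnion.1 hx
  obtain ⟨N, hN, h1⟩ := h i f hf x hi
  exact ⟨N, mem_iUnion.2 ⟨i, hN⟩, h1⟩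

theorem Small.union {S T : Set X} (hS : Small a S) (hT : Small a T) : Small a (S ∪ T) := by
  obtain ⟨𝒩, hc, h⟩ := hS
  obtain ⟨𝒩', hc', h'⟩ := hT
  refine ⟨𝒩 ∪ 𝒩', hc.union hc', ?_⟩
  rintro f hf x (hx | hx)
  · obtain ⟨N, hN, h1⟩ := h f hf x hx
    exact ⟨N, Or.inl hN, h1⟩
  · obtain ⟨N, hN, h1⟩ := h' f hf x hx
    exact ⟨N, Or.inr hN, h1⟩

theorem small_empty : Small a (∅ : Set X) :=
  ⟨∅, countable_empty, fun _ _ _ hx => hx.elim⟩

omit [TopologicalSpace X] in
theorem basic_nhds {U : Set (X → Bool)} (hU : IsOpen U) {g : X → Bool} (hg : g ∈ U) :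
    ∃ s : Finset X, ∀ h : X → Bool, (∀ x ∈ s, h x = g x) → h ∈ U := by
  obtain ⟨s, u, hu, hsub⟩ := isOpen_pi_iff.1 hU g hg
  refine ⟨s, fun h hh => hsub fun x hx => ?_⟩
  rw [hh x hx]
  exact (hu x hx).2

theorem Small.net (h : Small a univ) : Net (Fac a) := by
  obtain ⟨𝒩, hc, h⟩ := h
  refine ⟨(fun t : Set (Set (X → Bool)) => ⋂₀ t) '' {t | t.Finite ∧ t ⊆ 𝒩},
    (countable_setOf_finite_subset hc).image _, ?_⟩
  intro f hf U hU hfU
  obtain ⟨s, hs⟩ := basic_nhds hU hfU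
  choose N hN hfN hNg using fun x => h f hf x (mem_univ x)
  refine ⟨⋂₀ (N '' (s : Set X)), ⟨_, ⟨s.finite_toSet.image _, ?_⟩, rfl⟩, ?_, ?_⟩
  · rintro _ ⟨x, -, rfl⟩
    exact hN x
  · rintro _ ⟨x, -, rfl⟩
    exact hfN x
  · intro g hg
    exact hs g fun x hx => hNg x g (hg _ ⟨x, hx, rfl⟩)

theorem exists_countable_dense (ha : ∀ i, Continuous (a i)) :
    ∃ D : Set (X → Bool), D.Countable ∧ D ⊆ Fac a ∧
      ∀ f ∈ Fac a, ∀ s : Finset X, ∃ d ∈ D, ∀ x ∈ s, d x = f x := by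
  classical
  let T : (Σ m : ℕ, ((Fin m → Bool) → Bool)) → X → Bool := fun p x => p.2 fun i => a i x
  refine ⟨range T, countable_range T, ?_, ?_⟩
  · rintro _ ⟨p, rfl⟩
    refine ⟨?_, fun x x' h => ?_⟩
    · exact (continuous_of_discreteTopology (f := p.2)).comp (continuous_pi fun i => ha i)
    · simp only [T]
      rw [show (fun i : Fin p.1 => a i x) = fun i : Fin p.1 => a i x' from funext fun i => h i]
  · intro f hf s
    have h1 : ∀ q : X × X, ∃ m : ℕ, (∀ i < m, a i q.1 = a i q.2) → ∀ i, a i q.1 = a i q.2 := by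
      intro q
      by_cases h : ∀ i, a i q.1 = a i q.2
      · exact ⟨0, fun _ => h⟩
      · push Not at h
        obtain ⟨j, hj⟩ := h
        exact ⟨j + 1, fun h' => (hj (h' j (Nat.lt_succ_self j))).elim⟩
    choose m hm using h1
    let M : ℕ := (s ×ˢ s).sup m
    have h2 : ∀ x ∈ s, ∀ x' ∈ s, (∀ i : Fin M, a i x = a i x') → f x = f x' := by
      intro x hx x' hx' h
      refine hf.2 x x' (hm (x, x') fun i hi => ?_)
      have : m (x, x') ≤ M := Finset.le_sup (f := m) (Finset.mk_mem_product hx hx')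
      exact h ⟨i, hi.trans_le this⟩
    let h : (Fin M → Bool) → Bool := fun v =>
      decide (∃ x ∈ s, (∀ i : Fin M, a i x = v i) ∧ f x = true)
    refine ⟨T ⟨M, h⟩, ⟨_, rfl⟩, fun x hx => ?_⟩
    simp only [T, h]
    cases hfx : f x with
    | true => exact decide_eq_true ⟨x, hx, fun _ => rfl, hfx⟩
    | false =>
      refine decide_eq_false ?_
      rintro ⟨x', hx', h3, h4⟩
      rw [h2 x' hx' x hx h3, hfx] at h4
      exact Bool.false_ne_true h4

theorem glue_mem {p : X → ℕ} (hp : ∀ x, ∀ᶠ x' in 𝓝 x, p x' = p x)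
    (hs : ∀ x x', (∀ i, a i x = a i x') → p x = p x') {w : ℕ → X → Bool}
    (hw : ∀ n, w n ∈ Fac a) : (fun x => w (p x) x) ∈ Fac a := by
  refine ⟨continuous_iff_continuousAt.2 fun x => ?_, fun x x' h => ?_⟩
  · refine ((hw (p x)).1.continuousAt (x := x)).congr ?_
    filter_upwards [hp x] with x' hx'
    rw [hx']
  · simp only
    rw [← hs x x' h]
    exact (hw (p x)).2 x x' h

/-- Baire category in a countable power of the discrete set `Fac a`. -/
theorem baire_step (Y : ℕ → Set (X → Bool)) (hY : Fac a ⊆ ⋃ n, Y n) {p : X → ℕ}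
    (hp : ∀ x, ∀ᶠ x' in 𝓝 x, p x' = p x)
    (hs : ∀ x x', (∀ i, a i x = a i x') → p x = p x') :
    ∃ (n k : ℕ) (f₀ : X → Bool), f₀ ∈ Fac a ∧ ∀ g ∈ Fac a, (∀ x, p x < k → g x = f₀ x) →
      ∀ N : ℕ, ∃ y ∈ Y n, y ∈ Fac a ∧ ∀ x, p x < N → y x = g x := by
  classical
  let E : Type u := {f : X → Bool // f ∈ Fac a}
  let _ : TopologicalSpace E := ⊥
  have : DiscreteTopology E := ⟨rfl⟩
  have : Nonempty E := ⟨⟨fun _ => true, continuous_const, fun _ _ _ => rfl⟩⟩
  let gl : (ℕ → E) → X → Bool := fun w x => (w (p x)).1 x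
  have hgl : ∀ w, gl w ∈ Fac a := fun w =>
    glue_mem hp hs (w := fun n => (w n).1) fun n => (w n).2
  let S : ℕ → Set (ℕ → E) := fun n => {w | gl w ∈ Y n}
  have hS : ⋃ n, closure (S n) = univ := by
    rw [eq_univ_iff_forall]
    intro w
    obtain ⟨n, hn⟩ := mem_iUnion.1 (hY (hgl w))
    exact mem_iUnion.2 ⟨n, subset_closure hn⟩
  obtain ⟨n, w₀, hw₀⟩ := nonempty_interior_of_iUnion_of_closed (fun n => isClosed_closure) hS
  obtain ⟨s, u, hu, hsub⟩ := isOpen_pi_iff.1 isOpen_interior w₀ hw₀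
  refine ⟨n, s.sup id + 1, gl w₀, hgl w₀, ?_⟩
  intro g hg hg₀ N
  let w : ℕ → E := fun i => if i < s.sup id + 1 then w₀ i else ⟨g, hg⟩
  have hw : w ∈ closure (S n) := by
    refine interior_subset (hsub fun i hi => ?_)
    have h1 : i < s.sup id + 1 := Nat.lt_succ_of_le (Finset.le_sup (f := id) hi)
    simp only [w, if_pos h1]
    exact (hu i hi).2
  have hV : IsOpen {w' : ℕ → E | ∀ i ∈ Finset.range N, w' i = w i} := by
    have : {w' : ℕ → E | ∀ i ∈ Finset.range N, w' i = w i} =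
        ⋂ i ∈ Finset.range N, (fun w' : ℕ → E => w' i) ⁻¹' {w i} := by
      ext w'; simp
    rw [this]
    exact isOpen_biInter_finset fun i _ => (isOpen_discrete _).preimage (continuous_apply i)
  obtain ⟨w', hw', hw'S⟩ := mem_closure_iff.1 hw _ hV fun _ _ => rfl
  refine ⟨gl w', hw'S, hgl w', fun x hx => ?_⟩
  simp only [gl]
  rw [hw' (p x) (Finset.mem_range.2 hx)]
  by_cases h : p x < s.sup id + 1
  · simp only [w, if_pos h]
    exact (hg₀ x h).symm
  · simp only [w, if_neg h]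

/-- In a countable clopen saturated partition all but finitely many pieces are small. -/
theorem tail_small (ha : ∀ i, Continuous (a i)) (Y : ℕ → Set (X → Bool))
    (hY : Fac a ⊆ ⋃ n, Y n) (hm : ∀ n, Mono (Y n)) {p : X → ℕ}
    (hp : ∀ x, ∀ᶠ x' in 𝓝 x, p x' = p x)
    (hs : ∀ x x', (∀ i, a i x = a i x') → p x = p x') : ∃ k, Small a {x | k ≤ p x} := by
  classical
  obtain ⟨D, hDc, hD, hDd⟩ := exists_countable_dense ha
  obtain ⟨n, k, f₀, hf₀, hap⟩ := baire_step Y hY hp hs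
  let T : (X → Bool) → X → Bool := fun g x => (if p x < k then f₀ else g) x
  have hT : ∀ g ∈ Fac a, T g ∈ Fac a := fun g hg =>
    glue_mem hp hs (w := fun i => if i < k then f₀ else g) fun i => by
      split_ifs
      · exact hf₀
      · exact hg
  have hT₀ : ∀ g x, p x < k → T g x = f₀ x := fun g x hx => by simp only [T, if_pos hx]
  have hT₁ : ∀ g x, k ≤ p x → T g x = g x := fun g x hx => by
    simp only [T, if_neg (not_lt.2 hx)]
  choose y hyY hyF hyd using fun (d : D) (N : ℕ) => hap (T d) (hT d (hD d.2)) (hT₀ d) N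
  have : Countable D := hDc.to_subtype
  let B : Set (X → Bool) := range fun q : D × ℕ => y q.1 q.2
  have hB : B ⊆ Y n := by
    rintro _ ⟨q, rfl⟩
    exact hyY _ _
  have hZ : ∀ g ∈ Fac a, (∀ x, p x < k → g x = f₀ x) → g ∈ closure B := by
    intro g hg hg₀
    rw [mem_closure_iff]
    intro U hU hgU
    obtain ⟨s, hs'⟩ := basic_nhds hU hgU
    obtain ⟨d, hd, hds⟩ := hDd g hg s
    refine ⟨y ⟨d, hd⟩ (s.sup p + 1), hs' _ fun x hx => ?_, (⟨d, hd⟩, s.sup p + 1), rfl⟩
    rw [hyd _ _ x (Nat.lt_succ_of_le (Finset.le_sup hx))]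
    rcases lt_or_ge (p x) k with h | h
    · rw [hT₀ _ x h, hg₀ x h]
    · rw [hT₁ _ x h]
      exact hds x hx
  obtain ⟨𝒩, h𝒩c, h𝒩⟩ := hm n B hB (countable_range _)
  let th : Set (X → Bool) × ℕ → Set (X → Bool) := fun q =>
    {g | ∃ w ∈ q.1, ∀ x, p x = q.2 → g x = w x}
  refine ⟨k, th '' (𝒩 ×ˢ univ), (h𝒩c.prod countable_univ).image _, ?_⟩
  intro f hf x hx
  have hx' : k ≤ p x := hx
  obtain ⟨z, hzY, hzF, hz⟩ := hap (T f) (hT f hf) (hT₀ f) (p x + 1)
  have hzB : z ∈ closure B := hZ z hzF fun x' h => by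
    rw [hz x' (by omega), hT₀ f x' h]
  have hU : IsOpen {g : X → Bool | g x = z x} :=
    (isOpen_discrete {z x}).preimage (continuous_apply (A := fun _ : X => Bool) x)
  obtain ⟨N, hN, hzN, hNU⟩ := h𝒩 z ⟨hzB, hzY⟩ _ hU rfl
  refine ⟨th (N, p x), ⟨(N, p x), ⟨hN, mem_univ _⟩, rfl⟩, ⟨z, hzN, fun x' h => ?_⟩, ?_⟩
  · have h' : p x' = p x := h
    rw [hz x' (by omega), hT₁ f x' (by omega)]
  · rintro g ⟨w, hw, hgw⟩
    have h1 : w x = z x := hNU hw
    rw [hgw x rfl, h1, hz x (by omega), hT₁ f x hx']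

/-- Cylinder around the point `b` of the Cantor set. -/
def cyl (a : ℕ → X → Bool) (b : ℕ → Bool) (n : ℕ) : Set X := {x | ∀ i < n, a i x = b i}

theorem eventually_eq_of_cont {f : X → Bool} (hf : Continuous f) (x : X) :
    ∀ᶠ x' in 𝓝 x, f x' = f x :=
  hf.continuousAt.eventually ((isOpen_discrete {f x}).mem_nhds rfl)

theorem away_small (ha : ∀ i, Continuous (a i)) (Y : ℕ → Set (X → Bool))
    (hY : Fac a ⊆ ⋃ n, Y n) (hm : ∀ n, Mono (Y n)) (b : ℕ → Bool) {V : X → Bool}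
    (hV : V ∈ Fac a) (hb : ∀ x, (∀ i, a i x = b i) → V x = false) :
    ∃ k, Small a ({x | V x = true} ∩ cyl a b k) := by
  classical
  let p : X → ℕ := fun x => if V x = true then sInf {i | a i x ≠ b i} else 0
  have hne : ∀ x, V x = true → {i | a i x ≠ b i}.Nonempty := by
    intro x hx
    by_contra h
    have h1 : ∀ i, a i x = b i := fun i => by
      by_contra h2
      exact h ⟨i, h2⟩
    rw [hb x h1] at hx
    exact Bool.false_ne_true hx
  have hp : ∀ x, ∀ᶠ x' in 𝓝 x, p x' = p x := by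
    intro x
    by_cases hx : V x = true
    · have h1 : ∀ᶠ x' in 𝓝 x, ∀ i ∈ Finset.range (sInf {i | a i x ≠ b i} + 1),
          a i x' = a i x :=
        (eventually_all_finset _).2 fun i _ => eventually_eq_of_cont (ha i) x
      filter_upwards [eventually_eq_of_cont hV.1 x, h1] with x' h2 h3
      have hx' : V x' = true := h2.trans hx
      simp only [p, if_pos hx, if_pos hx']
      have h4 : sInf {i | a i x ≠ b i} ∈ {i | a i x' ≠ b i} := by
        have := Nat.sInf_mem (hne x hx)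
        simp only [mem_setOf_eq] at this ⊢
        rwa [h3 _ (Finset.self_mem_range_succ _)]
      have h5 := Nat.sInf_le h4
      refine le_antisymm h5 (Nat.sInf_le ?_)
      have := Nat.sInf_mem (hne x' hx')
      simp only [mem_setOf_eq] at this ⊢
      rwa [h3 _ (Finset.mem_range.2 (Nat.lt_succ_of_le h5))] at this
    · filter_upwards [eventually_eq_of_cont hV.1 x] with x' h2
      have hx' : ¬ V x' = true := by rwa [h2]
      simp only [p, if_neg hx, if_neg hx']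
  have hs : ∀ x x', (∀ i, a i x = a i x') → p x = p x' := by
    intro x x' h
    simp only [p, hV.2 x x' h, h]
  obtain ⟨k, hk⟩ := tail_small ha Y hY hm hp hs
  refine ⟨k, hk.mono ?_⟩
  rintro x ⟨hx, hxc⟩
  have hx' : V x = true := hx
  simp only [mem_setOf_eq, p, if_pos hx']
  by_contra h
  exact Nat.sInf_mem (hne x hx') (hxc _ (not_le.1 h))

theorem small_cyl_of_small (ha : ∀ i, Continuous (a i)) (Y : ℕ → Set (X → Bool))
    (hY : Fac a ⊆ ⋃ n, Y n) (hm : ∀ n, Mono (Y n)) {V : X → Bool} (hV : V ∈ Fac a)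
    (hS : Small a {x | V x = true}) {x : X} (hx : V x = true) :
    ∃ k, Small a (cyl a (fun i => a i x) k) := by
  have h1 : (fun x' => !(V x')) ∈ Fac a := by
    refine ⟨(continuous_of_discreteTopology (f := fun t : Bool => !t)).comp hV.1,
      fun x₁ x₂ h => ?_⟩
    simp only [hV.2 x₁ x₂ h]
  obtain ⟨k, hk⟩ := away_small ha Y hY hm (fun i => a i x) h1 fun x' h => by
    simp only [hV.2 x' x h, hx, Bool.not_true]
  refine ⟨k, (hS.union hk).mono fun x' hx' => ?_⟩
  cases h : V x' with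
  | true => exact Or.inl h
  | false => exact Or.inr ⟨by simp [h], hx'⟩

theorem locally_const (ha : ∀ i, Continuous (a i)) (Y : ℕ → Set (X → Bool))
    (hY : Fac a ⊆ ⋃ n, Y n) (hm : ∀ n, Mono (Y n)) {f : X → Bool} (hf : f ∈ Fac a) (x : X) :
    ∃ k, ∀ x' ∈ cyl a (fun i => a i x) k, (∀ n, ¬ Small a (cyl a (fun i => a i x') n)) →
      f x' = f x := by
  classical
  have h1 : (fun x' => (f x' != f x)) ∈ Fac a := by
    refine ⟨(continuous_of_discreteTopology (f := fun t : Bool => (t != f x))).comp hf.1,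
      fun x₁ x₂ h => ?_⟩
    simp only [hf.2 x₁ x₂ h]
  obtain ⟨k, hk⟩ := away_small ha Y hY hm (fun i => a i x) h1 fun x' h => by
    simp [hf.2 x' x h]
  refine ⟨k, fun x' hx' hK => ?_⟩
  let V : X → Bool := fun z => (f z != f x) && decide (∀ i : Fin k, a i z = a i x)
  have hV : V ∈ Fac a := by
    refine ⟨?_, fun x₁ x₂ h => ?_⟩
    · exact (continuous_of_discreteTopology (f := fun q : Bool × (Fin k → Bool) =>
        (q.1 != f x) && decide (∀ i : Fin k, q.2 i = a i x))).comp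
        (hf.1.prodMk (continuous_pi fun i : Fin k => ha i))
    · simp only [V, hf.2 x₁ x₂ h, h]
  have hS : Small a {z | V z = true} := by
    refine hk.mono fun z hz => ?_
    simp only [V, mem_setOf_eq, Bool.and_eq_true, decide_eq_true_eq] at hz
    exact ⟨hz.1, fun i hi => hz.2 ⟨i, hi⟩⟩
  by_contra hne
  have hVx : V x' = true := by
    simp only [V, Bool.and_eq_true, decide_eq_true_eq, bne_iff_ne]
    exact ⟨hne, fun i => hx' i i.2⟩
  obtain ⟨n, hn⟩ := small_cyl_of_small ha Y hY hm hV hS hVx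
  exact hK n hn

theorem small_univ (ha : ∀ i, Continuous (a i)) (Y : ℕ → Set (X → Bool))
    (hY : Fac a ⊆ ⋃ n, Y n) (hm : ∀ n, Mono (Y n)) : Small a univ := by
  classical
  let K : Set X := {x | ∀ n, ¬ Small a (cyl a (fun i => a i x) n)}
  let C : (Σ n : ℕ, (Fin n → Bool)) → Set X := fun q => {x | ∀ i : Fin q.1, a i x = q.2 i}
  have hC : ∀ x n, C ⟨n, fun i => a i x⟩ = cyl a (fun i => a i x) n := by
    intro x n
    ext z
    exact ⟨fun h i hi => h ⟨i, hi⟩, fun h i => h i i.2⟩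
  have h1 : Small a Kᶜ := by
    have h2 : Small a (⋃ q, if Small a (C q) then C q else ∅) := by
      refine Small.iUnion fun q => ?_
      split_ifs with h
      · exact h
      · exact small_empty
    refine h2.mono fun x hx => ?_
    simp only [K, mem_compl_iff, mem_setOf_eq, not_forall, not_not] at hx
    obtain ⟨n, hn⟩ := hx
    refine mem_iUnion.2 ⟨⟨n, fun i => a i x⟩, ?_⟩
    rw [if_pos (by rwa [hC])]
    exact fun _ => rfl
  have h2 : Small a K := by
    let N : (Σ n : ℕ, (Fin n → Bool)) × Bool → Set (X → Bool) := fun q =>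
      {g | ∀ z ∈ C q.1, z ∈ K → g z = q.2}
    refine ⟨range N, countable_range N, fun f hf x hx => ?_⟩
    obtain ⟨k, hk⟩ := locally_const ha Y hY hm hf x
    refine ⟨N (⟨k, fun i => a i x⟩, f x), ⟨_, rfl⟩, fun z hz hzK => ?_, fun g hg => ?_⟩
    · exact hk z (by rwa [← hC]) hzK
    · exact hg x (fun _ => rfl) hx
  have := h2.union h1
  rwa [union_compl_self] at this

theorem two_main (Y : ℕ → Set (X → Bool)) (hY : {f : X → Bool | Continuous f} ⊆ ⋃ n, Y n)
    (hm : ∀ n, Mono (Y n)) : Mono {f : X → Bool | Continuous f} := by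
  intro A hA hc
  obtain ⟨a, ha⟩ := (hc.insert fun _ => true).exists_eq_range (insert_nonempty _ _)
  have ha' : ∀ i, Continuous (a i) := by
    intro i
    have : a i ∈ insert (fun _ => true) A := ha ▸ mem_range_self i
    rcases this with h | h
    · rw [h]; exact continuous_const
    · exact hA h
  refine (small_univ ha' Y (fun f hf => hY hf.1) hm).net.mono ?_
  rintro f ⟨hf, hfc⟩
  refine ⟨hfc, fun x x' h => ?_⟩
  have : closure A ⊆ {g : X → Bool | g x = g x'} := by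
    refine closure_minimal (fun g hg => ?_) (isClosed_eq (continuous_apply x) (continuous_apply x'))
    have : g ∈ range a := ha ▸ mem_insert_of_mem _ hg
    obtain ⟨i, rfl⟩ := this
    exact h i
  exact this hf

end two

end Pool.Agent.Lib.MP_f5ae99_gt.Two
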