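import Pool.Agent.Lib.MP_f5ae99_gt.Main
import Pool.Agent.Lib.MP_f5ae99_gt.Two

set_option autoImplicit false

namespace Pool.Agent.Lib.MP_f5ae99_gt.Two

open Set Topology Filter TopologicalSpace

universe u v w

variable {X : Type u} [TopologicalSpace X]

theorem cover_pull {M : Type v} {R : Type w} [TopologicalSpace M] [TopologicalSpace R]
    {e : R → M} (he : IsInducing e) (Y : ℕ → Set (X → M))
    (hY : {f : X → M | Continuous f} ⊆ ⋃ n, Y n) (hm : ∀ n, Mono (Y n)) :
    ∃ Y' : ℕ → Set (X → R), (⋃ n, Y' n) = {f : X → R | Continuous f} ∧ ∀ n, Mono (Y' n) := by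
  let E : (X → R) → (X → M) := Pi.map fun _ => e
  have hE : IsInducing E := IsInducing.piMap fun _ => he
  refine ⟨fun n => E ⁻¹' Y n ∩ {f : X → R | Continuous f}, ?_,
    fun n => ((hm n).preimage hE).mono inter_subset_left⟩
  apply Subset.antisymm
  · exact iUnion_subset fun n => inter_subset_right
  · intro f hf
    have h1 : E f ∈ {f : X → M | Continuous f} := he.continuous.comp hf
    obtain ⟨n, hn⟩ := mem_iUnion.1 (hY h1)
    exact mem_iUnion.2 ⟨n, hn, hf⟩

theorem mono_push {M : Type v} {R : Type} {ι : Type w} [Countable ι] [TopologicalSpace M]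
    [TopologicalSpace R] {j : M → ι → R} (hj : IsInducing j)
    (h : Mono {f : X → R | Continuous f}) : Mono {f : X → M | Continuous f} := by
  let J : (X → M) → (X → ι → R) := Pi.map fun _ => j
  have hJ : IsInducing J := IsInducing.piMap fun _ => hj
  let s : (X → ι → R) ≃ₜ (ι → X → R) :=
    { toFun := fun g i x => g x i
      invFun := fun g x i => g i x
      left_inv := fun _ => rfl
      right_inv := fun _ => rfl
      continuous_toFun := by fun_prop
      continuous_invFun := by fun_prop }
  refine ((Mono.pi (ι := ι) h).preimage (s.isInducing.comp hJ)).mono ?_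
  intro f hf i _
  exact ((continuous_apply i).comp hj.continuous).comp hf

theorem real_main (Y : ℕ → Set (X → ℝ)) (hY : (⋃ n, Y n) = {f : X → ℝ | Continuous f})
    (hm : ∀ n, Mono (Y n)) : Mono {f : X → ℝ | Continuous f} :=
  fun A hA hc => Pool.Agent.Lib.MP_f5ae99_gt.main Y hY hm A hA hc

theorem exists_line : ∃ e : ℝ → Icc (0 : ℝ) 1, IsInducing e := by
  let θ : ℝ → ℝ := fun t => 1 / 2 + 1 / 4 * Real.arctan t
  have h1 : StrictMono θ := by
    intro s t hst
    have := Real.arctan_strictMono hst
    simp only [θ]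
    linarith
  have h2 : Continuous θ := by
    have := Real.continuous_arctan
    fun_prop
  have h3 : IsInducing θ :=
    (h1.isEmbedding_of_ordConnected (isPreconnected_range h2).ordConnected).isInducing
  have h4 : ∀ t, θ t ∈ Icc (0 : ℝ) 1 := by
    intro t
    have := abs_le.1 (Pool.Agent.Lib.MP_f5ae99_gt.abs_arctan_le t)
    simp only [θ]
    constructor <;> linarith [this.1, this.2]
  exact ⟨fun t => ⟨θ t, h4 t⟩, h3.codRestrict h4⟩

theorem arc_case {M : Type v} [TopologicalSpace M] [MetrizableSpace M] [SeparableSpace M]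
    {γ : Icc (0 : ℝ) 1 → M} (hγ : Continuous γ) (hγ' : Function.Injective γ)
    (Y : ℕ → Set (X → M)) (hY : {f : X → M | Continuous f} ⊆ ⋃ n, Y n)
    (hm : ∀ n, Mono (Y n)) : Mono {f : X → M | Continuous f} := by
  obtain ⟨e, he⟩ := exists_line
  have h1 : IsInducing (γ ∘ e) := (hγ.isClosedEmbedding hγ').isInducing.comp he
  obtain ⟨Y', hY', hm'⟩ := cover_pull h1 Y hY hm
  let _ := metrizableSpaceMetric M
  obtain ⟨F, hF⟩ := Metric.PiNatEmbed.exists_embedding_to_hilbert_cube (X := M)
  have h2 : IsInducing (Pi.map fun _ : ℕ => (Subtype.val : unitInterval → ℝ)) :=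
    IsInducing.piMap fun _ => IsInducing.subtypeVal
  exact mono_push (h2.comp hF.isInducing) (real_main Y' hY' hm')

theorem exists_cantor {M : Type v} [TopologicalSpace M] [SecondCountableTopology M]
    (hM : IsTopologicalBasis {U : Set M | IsClopen U}) :
    ∃ (ι : Type v) (_ : Countable ι) (j : M → ι → Bool), IsInducing j := by
  classical
  obtain ⟨B, hB, hBc, hBb⟩ := hM.exists_countable
  refine ⟨B, hBc.to_subtype, fun m U => decide (m ∈ (U : Set M)), ?_⟩
  have hc : Continuous fun (m : M) (U : B) => decide (m ∈ (U : Set M)) := by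
    refine continuous_pi fun U => ?_
    have hU : IsClopen (U : Set M) := hB U.2
    rw [continuous_bool_rng true]
    convert hU using 1
    ext m
    simp
  refine isInducing_iff_nhds.2 fun m => le_antisymm (hc.tendsto m).le_comap ?_
  intro t ht
  obtain ⟨U, hU, hmU, hUt⟩ := hBb.mem_nhds_iff.1 ht
  refine mem_comap.2 ⟨{g : B → Bool | g ⟨U, hU⟩ = true}, ?_, fun m' hm' => hUt ?_⟩
  · refine IsOpen.mem_nhds ?_ (decide_eq_true hmU)
    exact (isOpen_discrete {true}).preimage (continuous_apply (A := fun _ : B => Bool) ⟨U, hU⟩)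
  · exact of_decide_eq_true hm'

theorem zero_case {M : Type v} [TopologicalSpace M] [MetrizableSpace M] [SeparableSpace M]
    (hM : IsTopologicalBasis {U : Set M | IsClopen U})
    (Y : ℕ → Set (X → M)) (hY : {f : X → M | Continuous f} ⊆ ⋃ n, Y n)
    (hm : ∀ n, Mono (Y n)) : Mono {f : X → M | Continuous f} := by
  rcases subsingleton_or_nontrivial M with h | h
  · intro A _ _
    exact ⟨{univ}, countable_singleton _, fun x _ U _ hx =>
      ⟨univ, rfl, mem_univ _, fun y _ => Subsingleton.elim x y ▸ hx⟩⟩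
  · obtain ⟨p, q, hpq⟩ := exists_pair_ne M
    let e : Bool → M := fun t => if t = true then p else q
    have he : Function.Injective e := by
      intro s t hst
      cases s <;> cases t <;> simp [e] at hst ⊢
      · exact hpq hst.symm
      · exact hpq hst
    have h1 : IsInducing e :=
      ((continuous_of_discreteTopology (f := e)).isClosedEmbedding he).isInducing
    obtain ⟨Y', hY', hm'⟩ := cover_pull h1 Y hY hm
    let _ := metrizableSpaceMetric M
    have : SecondCountableTopology M := UniformSpace.secondCountable_of_separable M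
    obtain ⟨ι, _, j, hj⟩ := exists_cantor hM
    exact mono_push hj (two_main Y' hY'.ge hm')

/-- Every subset of the line contains an arc or has a base of clopen sets. -/
theorem real_subset (M : Set ℝ) :
    (∃ γ : Icc (0 : ℝ) 1 → M, Continuous γ ∧ Function.Injective γ) ∨
      IsTopologicalBasis {U : Set M | IsClopen U} := by
  by_cases h : ∃ p q : ℝ, p < q ∧ Icc p q ⊆ M
  · obtain ⟨p, q, hpq, hM⟩ := h
    refine Or.inl ⟨fun t => ⟨p + (q - p) * t, hM ⟨?_, ?_⟩⟩, by fun_prop, fun s t hst => ?_⟩
    · nlinarith [t.2.1]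
    · nlinarith [t.2.2]
    · have h1 : p + (q - p) * s = p + (q - p) * t := congrArg Subtype.val hst
      exact Subtype.ext (mul_left_cancel₀ (sub_pos.2 hpq).ne' (add_left_cancel h1))
  · push Not at h
    refine Or.inr (isTopologicalBasis_of_isOpen_of_nhds (fun U hU => hU.isOpen) ?_)
    intro m U hm hU
    obtain ⟨ε, hε, hb⟩ := Metric.isOpen_iff.1 hU m hm
    obtain ⟨p, hp, hpM⟩ := not_subset.1 (h (m - ε / 2) (m - ε / 4) (by linarith))
    obtain ⟨q, hq, hqM⟩ := not_subset.1 (h (m + ε / 4) (m + ε / 2) (by linarith))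
    refine ⟨Subtype.val ⁻¹' Ioo p q, ⟨?_, isOpen_Ioo.preimage continuous_subtype_val⟩,
      ⟨by linarith [hp.2], by linarith [hq.1]⟩, fun x hx => hb ?_⟩
    · have : (Subtype.val ⁻¹' Ioo p q : Set M) = Subtype.val ⁻¹' Icc p q := by
        ext x
        refine ⟨fun hx => ⟨hx.1.le, hx.2.le⟩, fun hx => ⟨lt_of_le_of_ne hx.1 ?_,
          lt_of_le_of_ne hx.2 ?_⟩⟩
        · exact fun e => hpM (e ▸ x.2)
        · exact fun e => hqM (e ▸ x.2)
      rw [this]
      exact isClosed_Icc.preimage continuous_subtype_val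
    · rw [Metric.mem_ball, Subtype.dist_eq, Real.dist_eq, abs_lt]
      constructor <;> linarith [hx.1, hx.2, hp.1, hq.2]

end Pool.Agent.Lib.MP_f5ae99_gt.Two
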