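import Mathlib

set_option autoImplicit false

namespace Pool.Agent.Lib.MP_f5ae99_gt

open Set Topology BoundedContinuousFunction

universe u

variable {X : Type u} [TopologicalSpace X]

/-- Continuous functions that are constant on the fibres of the family `A`. -/
def Fac (A : Set (X → ℝ)) : Set (X → ℝ) :=
  {f | Continuous f ∧ ∀ x x', (∀ a ∈ A, a x = a x') → f x = f x'}

omit [TopologicalSpace X] in
theorem basic_nhds {U : Set (X → ℝ)} (hU : IsOpen U) {g : X → ℝ} (hg : g ∈ U) :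
    ∃ (s : Finset X) (δ : ℝ), 0 < δ ∧ ∀ h : X → ℝ, (∀ x ∈ s, |h x - g x| < δ) → h ∈ U := by
  obtain ⟨s, u, hu, hsub⟩ := isOpen_pi_iff.1 hU g hg
  have h1 : ∀ x ∈ s, ∀ᶠ δ in 𝓝[>] (0 : ℝ), Metric.ball (g x) δ ⊆ u x := by
    intro x hx
    obtain ⟨ε, hε, hb⟩ := Metric.isOpen_iff.1 (hu x hx).1 _ (hu x hx).2
    filter_upwards [Ioo_mem_nhdsGT hε] with δ hδ
    exact (Metric.ball_subset_ball hδ.2.le).trans hb
  have h2 := ((Filter.eventually_all_finset s).2 h1).and self_mem_nhdsWithin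
  obtain ⟨δ, hδ1, hδ2⟩ := h2.exists
  refine ⟨s, δ, hδ2, fun h hh => hsub fun x hx => hδ1 x hx ?_⟩
  rw [Metric.mem_ball, Real.dist_eq]
  exact hh x hx

omit [TopologicalSpace X] in
theorem isOpen_basic (s : Finset X) (g : X → ℝ) (δ : ℝ) :
    IsOpen {h : X → ℝ | ∀ x ∈ s, |h x - g x| < δ} := by
  have : {h : X → ℝ | ∀ x ∈ s, |h x - g x| < δ} = ⋂ x ∈ s, {h : X → ℝ | |h x - g x| < δ} := by
    ext h; simp
  rw [this]
  exact isOpen_biInter_finset fun x _ => isOpen_lt (by fun_prop) continuous_const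

theorem closure_subset_fac (A : Set (X → ℝ)) :
    closure A ∩ {f : X → ℝ | Continuous f} ⊆ Fac A := by
  rintro f ⟨hf, hc⟩
  refine ⟨hc, fun x x' h => ?_⟩
  have : closure A ⊆ {g : X → ℝ | g x = g x'} :=
    closure_minimal (fun a ha => h a ha) (isClosed_eq (continuous_apply x) (continuous_apply x'))
  exact this hf

theorem abs_arctan_le (t : ℝ) : |Real.arctan t| ≤ 2 := by
  have h1 := Real.arctan_lt_pi_div_two t
  have h2 := Real.neg_pi_div_two_lt_arctan t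
  have h3 := Real.pi_le_four
  rw [abs_le]
  constructor <;> linarith

theorem exists_countable_dense {A : Set (X → ℝ)} (hA : A ⊆ {f : X → ℝ | Continuous f})
    (hc : A.Countable) : ∃ D : Set (X → ℝ), D.Countable ∧ D ⊆ Fac A ∧ Fac A ⊆ closure D := by
  classical
  have : Countable A := hc.to_subtype
  let K := A → Set.Icc (-2 : ℝ) 2
  let φ : X → K := fun x a => ⟨Real.arctan ((a : X → ℝ) x), abs_le.1 (abs_arctan_le _)⟩
  have hφ : Continuous φ := by
    refine continuous_pi fun a => Continuous.subtype_mk ?_ _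
    exact Real.continuous_arctan.comp (hA a.2)
  have hφ' : ∀ x x', φ x = φ x' ↔ ∀ a ∈ A, a x = a x' := by
    intro x x'
    constructor
    · intro h a ha
      have := congrArg Subtype.val (congrFun h ⟨a, ha⟩)
      exact Real.arctan_injective this
    · intro h
      funext a
      apply Subtype.ext
      simp only [φ]
      rw [h a a.2]
  obtain ⟨D₀, hD₀, hdense⟩ := TopologicalSpace.exists_countable_dense C(K, ℝ)
  let T : C(K, ℝ) → (X → ℝ) := fun g x => g (φ x)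
  have hT : Continuous T := continuous_pi fun x => continuous_eval_const (φ x)
  refine ⟨T '' D₀, hD₀.image _, ?_, ?_⟩
  · rintro _ ⟨g, -, rfl⟩
    refine ⟨g.continuous.comp hφ, fun x x' h => ?_⟩
    simp only [T]
    rw [(hφ' x x').2 h]
  · intro f hf
    have h1 : range T ⊆ closure (T '' D₀) := by
      rintro _ ⟨g, rfl⟩
      exact image_closure_subset_closure_image hT ⟨g, hdense g, rfl⟩
    refine closure_minimal h1 isClosed_closure ?_
    rw [mem_closure_iff]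
    intro U hU hfU
    obtain ⟨s, δ, hδ, hs⟩ := basic_nhds hU hfU
    let S : Set K := φ '' (s : Set X)
    have hSf : S.Finite := s.finite_toSet.image _
    have : Finite S := hSf.to_subtype
    let r : C(S, ℝ) := ⟨fun t => f t.2.choose, continuous_of_discreteTopology⟩
    obtain ⟨g, hg⟩ := ContinuousMap.exists_restrict_eq hSf.isClosed r
    refine ⟨T g, hs _ fun x hx => ?_, g, rfl⟩
    have hx' : φ x ∈ S := ⟨x, hx, rfl⟩
    have h2 : g (φ x) = r ⟨φ x, hx'⟩ := by rw [← hg]; rfl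
    have h3 : r ⟨φ x, hx'⟩ = f x := by
      have := hx'.choose_spec.2
      exact hf.2 _ _ ((hφ' _ _).1 this)
    simp only [T]
    rw [h2, h3]
    simpa using hδ

theorem baire_step (A : Set (X → ℝ)) (Y : ℕ → Set (X → ℝ))
    (hY : (⋃ n, Y n) = {f : X → ℝ | Continuous f}) :
    ∃ (n : ℕ) (f₀ : X → ℝ) (ε : ℝ), 0 < ε ∧ f₀ ∈ Fac A ∧
      ∀ g ∈ Fac A, (∀ x, |g x - f₀ x| ≤ ε) → ∀ δ : ℝ, 0 < δ →
        ∃ y ∈ Y n, y ∈ Fac A ∧ ∀ x, |y x - g x| ≤ δ := by
  let E : Set (X →ᵇ ℝ) := {f | ∀ x x', (∀ a ∈ A, a x = a x') → f x = f x'}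
  have hE : IsClosed E := by
    have : E = ⋂ x, ⋂ x', ⋂ (_ : ∀ a ∈ A, a x = a x'), {f : X →ᵇ ℝ | f x = f x'} := by
      ext f; simp [E]
    rw [this]
    exact isClosed_iInter fun x => isClosed_iInter fun x' => isClosed_iInter fun _ =>
      isClosed_eq (continuous_eval_const x) (continuous_eval_const x')
  have : CompleteSpace E := hE.completeSpace_coe
  have : Nonempty E := ⟨⟨0, fun _ _ _ => rfl⟩⟩
  let S : ℕ → Set E := fun n => {f | ((f : X →ᵇ ℝ) : X → ℝ) ∈ Y n}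
  have hS : ⋃ n, closure (S n) = univ := by
    rw [eq_univ_iff_forall]
    intro f
    have : ((f : X →ᵇ ℝ) : X → ℝ) ∈ ⋃ n, Y n := by
      rw [hY]; exact (f : X →ᵇ ℝ).continuous
    obtain ⟨n, hn⟩ := mem_iUnion.1 this
    exact mem_iUnion.2 ⟨n, subset_closure hn⟩
  obtain ⟨n, f₀, hf₀⟩ := nonempty_interior_of_iUnion_of_closed (fun n => isClosed_closure) hS
  obtain ⟨ε, hε, hball⟩ := Metric.mem_nhds_iff.1 (mem_interior_iff_mem_nhds.1 hf₀)
  refine ⟨n, (f₀ : X →ᵇ ℝ), ε / 2, by positivity, ⟨(f₀ : X →ᵇ ℝ).continuous, f₀.2⟩, ?_⟩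
  intro g hg hgf δ hδ
  let g' : X →ᵇ ℝ := ofNormedAddCommGroup g hg.1 (‖(f₀ : X →ᵇ ℝ)‖ + ε / 2) (fun x => by
    have h1 := hgf x
    have h2 := norm_coe_le_norm (f₀ : X →ᵇ ℝ) x
    rw [Real.norm_eq_abs] at h2 ⊢
    have h3 := abs_sub_abs_le_abs_sub (g x) ((f₀ : X →ᵇ ℝ) x)
    linarith)
  have hg' : g' ∈ E := hg.2
  have h1 : (⟨g', hg'⟩ : E) ∈ Metric.ball f₀ ε := by
    rw [Metric.mem_ball, Subtype.dist_eq]
    refine lt_of_le_of_lt ((dist_le (by positivity)).2 fun x => ?_) (half_lt_self hε)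
    rw [Real.dist_eq]
    exact hgf x
  obtain ⟨y, hy, hyd⟩ := Metric.mem_closure_iff.1 (hball h1) δ hδ
  refine ⟨(y : X →ᵇ ℝ), hy, ⟨(y : X →ᵇ ℝ).continuous, y.2⟩, fun x => ?_⟩
  rw [Subtype.dist_eq] at hyd
  have h2 := dist_coe_le_dist (f := g') (g := (y : X →ᵇ ℝ)) x
  rw [Real.dist_eq, abs_sub_comm] at h2
  exact h2.trans hyd.le

theorem main (Y : ℕ → Set (X → ℝ)) (hY : (⋃ n, Y n) = {f : X → ℝ | Continuous f})
    (hm : ∀ n, ∀ A : Set (X → ℝ), A ⊆ Y n → A.Countable →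
      ∃ 𝒩 : Set (Set (X → ℝ)), 𝒩.Countable ∧
        ∀ x ∈ closure A ∩ Y n, ∀ U : Set (X → ℝ), IsOpen U → x ∈ U →
          ∃ N ∈ 𝒩, x ∈ N ∧ N ⊆ U)
    (A : Set (X → ℝ)) (hA : A ⊆ {f : X → ℝ | Continuous f}) (hc : A.Countable) :
    ∃ 𝒩 : Set (Set (X → ℝ)), 𝒩.Countable ∧
      ∀ x ∈ closure A ∩ {f : X → ℝ | Continuous f}, ∀ U : Set (X → ℝ), IsOpen U → x ∈ U →
        ∃ N ∈ 𝒩, x ∈ N ∧ N ⊆ U := by
  obtain ⟨D, hDc, hD, hDd⟩ := exists_countable_dense hA hc
  obtain ⟨n, f₀, ε, hε, hf₀, hap⟩ := baire_step A Y hY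
  let T : (X → ℝ) → (X → ℝ) := fun h x => f₀ x + max (-ε) (min (h x) ε)
  have hT : Continuous T := continuous_pi fun x => by fun_prop
  have hTF : ∀ h ∈ Fac A, T h ∈ Fac A := by
    intro h hh
    refine ⟨?_, fun x x' hx => ?_⟩
    · have h1 := hh.1
      have h2 := hf₀.1
      fun_prop
    · simp only [T]
      rw [hh.2 x x' hx, hf₀.2 x x' hx]
  have hTb : ∀ h x, |T h x - f₀ x| ≤ ε := by
    intro h x
    simp only [T, add_sub_cancel_left]
    rw [abs_le]
    exact ⟨le_max_left _ _, max_le (by linarith) (min_le_right _ _)⟩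
  have hk : ∀ k : ℕ, (0 : ℝ) < 1 / ((k : ℝ) + 1) := fun k => by positivity
  choose! y hyY hyF hyd using fun (d : D) (k : ℕ) =>
    hap (T d) (hTF d (hD d.2)) (hTb d) (1 / ((k : ℝ) + 1)) (hk k)
  have : Countable D := hDc.to_subtype
  let B : Set (X → ℝ) := range (fun p : D × ℕ => y p.1 p.2)
  have hB : B ⊆ Y n := by
    rintro _ ⟨p, rfl⟩
    exact hyY _ _
  have hZ : ∀ g ∈ Fac A, (∀ x, |g x - f₀ x| ≤ ε) → g ∈ closure B := by
    intro g hg hgf
    have h1 : T '' D ⊆ closure B := by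
      rintro _ ⟨d, hd, rfl⟩
      refine mem_closure_of_tendsto (f := fun k : ℕ => y ⟨d, hd⟩ k) (b := Filter.atTop) ?_
        (Filter.Eventually.of_forall fun k => ⟨(⟨d, hd⟩, k), rfl⟩)
      rw [tendsto_pi_nhds]
      intro x
      rw [tendsto_iff_dist_tendsto_zero]
      refine squeeze_zero (fun _ => dist_nonneg) (fun k => ?_)
        tendsto_one_div_add_atTop_nhds_zero_nat
      rw [Real.dist_eq]
      exact hyd ⟨d, hd⟩ k x
    have h2 : (fun x => g x - f₀ x) ∈ Fac A := by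
      refine ⟨hg.1.sub hf₀.1, fun x x' hx => ?_⟩
      simp only
      rw [hg.2 x x' hx, hf₀.2 x x' hx]
    have h3 : T (fun x => g x - f₀ x) = g := by
      funext x
      have := abs_le.1 (hgf x)
      simp only [T]
      rw [min_eq_left this.2, max_eq_right this.1]
      ring
    have h4 : g ∈ closure (T '' D) :=
      image_closure_subset_closure_image hT ⟨_, hDd h2, h3⟩
    exact closure_minimal h1 isClosed_closure h4
  obtain ⟨𝒩, h𝒩c, h𝒩⟩ := hm n B hB (countable_range _)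
  let thick : Set (X → ℝ) → ℕ → Set (X → ℝ) := fun N k =>
    {g | ∃ w ∈ N, ∀ x, |w x - g x| ≤ 1 / ((k : ℝ) + 1)}
  have hthick : ∀ g ∈ Fac A, (∀ x, |g x - f₀ x| ≤ ε / 2) → ∀ U : Set (X → ℝ), IsOpen U → g ∈ U →
      ∃ N ∈ 𝒩, ∃ k, g ∈ thick N k ∧ thick N k ⊆ U := by
    intro g hg hgf U hU hgU
    obtain ⟨s, δ, hδ, hs⟩ := basic_nhds hU hgU
    obtain ⟨k, hk'⟩ := exists_nat_one_div_lt (show 0 < min (δ / 3) (ε / 2) by positivity)
    have hk1 : 1 / ((k : ℝ) + 1) < δ / 3 := hk'.trans_le (min_le_left _ _)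
    have hk2 : 1 / ((k : ℝ) + 1) < ε / 2 := hk'.trans_le (min_le_right _ _)
    obtain ⟨w, hwY, hwF, hwd⟩ := hap g hg (fun x => (hgf x).trans (by linarith)) _ (hk k)
    have hwB : w ∈ closure B := by
      refine hZ w hwF fun x => ?_
      have h1 := abs_sub_le (w x) (g x) (f₀ x)
      linarith [hwd x, hgf x]
    obtain ⟨N, hN, hwN, hNs⟩ := h𝒩 w ⟨hwB, hwY⟩ _ (isOpen_basic s w (1 / ((k : ℝ) + 1)))
      (fun x _ => by simpa using hk k)
    refine ⟨N, hN, k, ⟨w, hwN, hwd⟩, ?_⟩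
    rintro h ⟨w', hw', hw'd⟩
    refine hs h fun x hx => ?_
    have h1 := hNs hw' x hx
    have h2 := hw'd x
    have h3 := hwd x
    have h4 := abs_sub_le (h x) (w' x) (g x)
    have h5 := abs_sub_le (w' x) (w x) (g x)
    rw [abs_sub_comm] at h2
    linarith
  let θ : X → ℝ → ℝ := fun x t => f₀ x + ε / 4 * Real.arctan t
  have hθ : ∀ x, IsInducing (θ x) := by
    intro x
    have h1 : StrictMono (θ x) := by
      intro a b hab
      have := Real.arctan_strictMono hab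
      simp only [θ]
      nlinarith
    have h2 : Continuous (θ x) := by
      have := Real.continuous_arctan
      fun_prop
    exact (h1.isEmbedding_of_ordConnected (isPreconnected_range h2).ordConnected).isInducing
  let Θ : (X → ℝ) → (X → ℝ) := Pi.map θ
  have hΘ : IsInducing Θ := IsInducing.piMap hθ
  refine ⟨(fun p : Set (X → ℝ) × ℕ => Θ ⁻¹' thick p.1 p.2) '' (𝒩 ×ˢ univ),
    (h𝒩c.prod countable_univ).image _, ?_⟩
  intro h hh U hU hhU
  have hF := closure_subset_fac A hh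
  obtain ⟨V, hV, rfl⟩ := hΘ.isOpen_iff.1 hU
  have h1 : Θ h ∈ Fac A := by
    refine ⟨?_, fun x x' hx => ?_⟩
    · have h1 := hF.1
      have h2 := hf₀.1
      have h3 := Real.continuous_arctan
      change Continuous fun x => f₀ x + ε / 4 * Real.arctan (h x)
      fun_prop
    · change f₀ x + ε / 4 * Real.arctan (h x) = f₀ x' + ε / 4 * Real.arctan (h x')
      rw [hF.2 x x' hx, hf₀.2 x x' hx]
  have h2 : ∀ x, |Θ h x - f₀ x| ≤ ε / 2 := by
    intro x
    change |f₀ x + ε / 4 * Real.arctan (h x) - f₀ x| ≤ ε / 2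
    rw [add_sub_cancel_left, abs_mul, abs_of_pos (by positivity)]
    have := abs_arctan_le (h x)
    nlinarith
  obtain ⟨N, hN, k, hk1, hk2⟩ := hthick _ h1 h2 V hV hhU
  exact ⟨Θ ⁻¹' thick N k, ⟨(N, k), ⟨hN, mem_univ _⟩, rfl⟩, hk1, preimage_mono hk2⟩

end Pool.Agent.Lib.MP_f5ae99_gt
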